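import Mathlib
import Pool.Agent.H99.Dg.Dig

/-!
# MP_b08cb4_nt: powers of almost all primes have no short expansions, in any base

For all `k, l, r, s, E` and `ε > 0` there are `R`, `C` and `δ > 0` such that for all `Y ≥ 2` and
all but at most `C Y ^ ε` of the primes `p ≤ Y` the following holds for every number
`A = u p ^ n x_1 ^ e_1 ⋯ x_r ^ e_r ≤ exp (Y ^ δ)` with `p ^ n ≥ Y ^ R`, `u ≤ Y ^ E` and arbitrary
`x_i ≤ Y` (for instance for `A = p ^ n`):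

* `A` is not a sum of `k` terms `d q_1 ^ m_1 ⋯ q_s ^ m_s`, `|d| ≤ Y ^ E`, for any bases
  `q_1, …, q_s ≤ Y` not divisible by `p`;
* hence for every base `q ≤ Y` not divisible by `p` the digits of `A` in base `q` are not a
  concatenation of `k` words with periods at most `l`.
-/

set_option autoImplicit false

namespace Pool.Agent.Results.MP_b08cb4_nt.FewTermsInAllBases

open Finset Pool.Agent.H99.Dg

theorem Mult.mono {r E E' R R' Y p A : ℕ} (hY : 1 ≤ Y) (hE : E ≤ E') (hR : R' ≤ R)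
    (h : Mult r E R Y p A) {M : ℕ} (hM : 1 ≤ M) {m : ℕ} (hM' : M ≤ Y ^ m) (hE' : E + m ≤ E') :
    Mult r E' R' Y p (A * M) := by
  obtain ⟨n, u, x, e, h1, h2, h3, h4, h5⟩ := h
  refine ⟨n, u * M, x, e, (Nat.pow_le_pow_right hY hR).trans h1, Nat.mul_pos h2 hM, ?_, h4, ?_⟩
  · calc u * M ≤ Y ^ E * Y ^ m := Nat.mul_le_mul h3 hM'
      _ = Y ^ (E + m) := (pow_add _ _ _).symm
      _ ≤ Y ^ E' := Nat.pow_le_pow_right hY hE'
  · rw [h5]
    ring

theorem Terms.mono {k s E E' Y p : ℕ} {A : ℤ} {δ δ' : ℝ} (hY : 1 ≤ Y) (hE : E ≤ E')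
    (hδ : δ ≤ δ') (h : Terms k s E δ Y p A) : Terms k s E' δ' Y p A := by
  obtain ⟨q, d, m, h1, h2, h3, h4⟩ := h
  refine ⟨q, d, m, h1, fun i => (h2 i).trans ?_, fun i => (h3 i).trans ?_, h4⟩
  · exact pow_le_pow_right₀ (by exact_mod_cast hY) hE
  · exact Real.exp_le_exp.2 (Real.rpow_le_rpow_of_exponent_le (by exact_mod_cast hY) hδ)

theorem large (F : ℕ) {δ : ℝ} (hδ : 0 < δ) : ∃ Y0 : ℕ, ∀ Y : ℕ, Y0 ≤ Y → 2 ≤ Y →
    (Y : ℝ) ^ F * Real.exp ((Y : ℝ) ^ (δ / 2)) ≤ Real.exp ((Y : ℝ) ^ δ) := by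
  have h1 : Filter.Tendsto (fun Y : ℕ => (Y : ℝ) ^ (δ / 2)) Filter.atTop Filter.atTop :=
    (tendsto_rpow_atTop (by positivity)).comp tendsto_natCast_atTop_atTop
  obtain ⟨Y0, hY0⟩ := Filter.eventually_atTop.1
    (h1.eventually (Filter.eventually_ge_atTop ((F : ℝ) / (δ / 2) + 1)))
  refine ⟨Y0, fun Y hY hY2 => ?_⟩
  have h2 := hY0 Y hY
  have hYr : (2 : ℝ) ≤ (Y : ℝ) := by exact_mod_cast hY2
  have h3 : (Y : ℝ) ^ F = Real.exp (F * Real.log Y) := by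
    rw [mul_comm, Real.exp_mul, Real.exp_log (by linarith), Real.rpow_natCast]
  rw [h3, ← Real.exp_add]
  apply Real.exp_le_exp.2
  have h4 : Real.log (Y : ℝ) ≤ (Y : ℝ) ^ (δ / 2) / (δ / 2) :=
    Real.log_le_rpow_div (by positivity) (by positivity)
  have h5 : (Y : ℝ) ^ δ = (Y : ℝ) ^ (δ / 2) * (Y : ℝ) ^ (δ / 2) := by
    rw [← Real.rpow_add (by linarith), add_halves]
  have h6 : 0 < (Y : ℝ) ^ (δ / 2) := by positivity
  calc (F : ℝ) * Real.log Y + (Y : ℝ) ^ (δ / 2)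
      ≤ F * ((Y : ℝ) ^ (δ / 2) / (δ / 2)) + (Y : ℝ) ^ (δ / 2) := by gcongr
    _ = ((F : ℝ) / (δ / 2) + 1) * (Y : ℝ) ^ (δ / 2) := by ring
    _ ≤ (Y : ℝ) ^ (δ / 2) * (Y : ℝ) ^ (δ / 2) := mul_le_mul_of_nonneg_right h2 h6.le
    _ = (Y : ℝ) ^ δ := h5.symm

/-- **Powers of almost all primes in all bases.** -/
theorem result (k l r s E : ℕ) (ε : ℝ) (hε : 0 < ε) :
    ∃ (R : ℕ) (C δ : ℝ), 0 < δ ∧ ∀ Y : ℕ, 2 ≤ Y →
      ∃ X : Finset ℕ, (X.card : ℝ) ≤ C * (Y : ℝ) ^ ε ∧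
        ∀ p : ℕ, p.Prime → p ≤ Y → p ∉ X →
          ∀ A : ℕ, Mult r E R Y p A → (A : ℝ) ≤ Real.exp ((Y : ℝ) ^ δ) →
            ¬ Terms k s E δ Y p A ∧
            ∀ q : ℕ, 2 ≤ q → q ≤ Y → ¬ p ∣ q → ¬ Simple q k l A := by
  classical
  obtain ⟨R1, C1, δ1, hδ1, H1⟩ := few_terms k r s E ε hε
  obtain ⟨R2, C2, δ2, hδ2, H2⟩ := few_terms (k + k) r 1 (E + (k + 1) * l) ε hε
  obtain ⟨Y0, hY0⟩ := large ((k + 1) * l + 1) hδ2
  refine ⟨max R1 R2, |C1| + |C2| + (Y0 + 1), min δ1 (δ2 / 2), by positivity, fun Y hY => ?_⟩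
  have hYr : (2 : ℝ) ≤ (Y : ℝ) := by exact_mod_cast hY
  have hYe : (1 : ℝ) ≤ (Y : ℝ) ^ ε := Real.one_le_rpow (by linarith) hε.le
  rcases lt_or_ge Y Y0 with hlt | hge
  · refine ⟨range (Y + 1), ?_, fun p _ h2 h3 => absurd (mem_range.2 (by omega)) h3⟩
    rw [card_range]
    have h1 : ((Y + 1 : ℕ) : ℝ) ≤ (Y0 : ℝ) + 1 := by exact_mod_cast (by omega : Y + 1 ≤ Y0 + 1)
    have h2 : 0 ≤ |C1| + |C2| := by positivity
    nlinarith [(Nat.cast_nonneg Y0 : (0 : ℝ) ≤ (Y0 : ℝ))]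
  · obtain ⟨X1, hX1, hX1'⟩ := H1 Y hY
    obtain ⟨X2, hX2, hX2'⟩ := H2 Y hY
    refine ⟨X1 ∪ X2, ?_, fun p hp hpY hpX A hM hA => ⟨fun hT => ?_, fun q hq hqY hpq hS => ?_⟩⟩
    · have h1 : ((X1 ∪ X2).card : ℝ) ≤ (X1.card : ℝ) + X2.card := by
        exact_mod_cast card_union_le _ _
      have h2 : C1 * (Y : ℝ) ^ ε ≤ |C1| * (Y : ℝ) ^ ε :=
        mul_le_mul_of_nonneg_right (le_abs_self _) (by linarith)
      have h3 : C2 * (Y : ℝ) ^ ε ≤ |C2| * (Y : ℝ) ^ ε :=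
        mul_le_mul_of_nonneg_right (le_abs_self _) (by linarith)
      have h4 : 0 ≤ ((Y0 : ℝ) + 1) * (Y : ℝ) ^ ε := by positivity
      linarith
    · refine hX1' p hp hpY (fun h => hpX (mem_union_left _ h)) A ?_ ?_
        (Terms.mono (by omega) le_rfl (min_le_left _ _) hT)
      · have := Mult.mono (r := r) (E' := E) (R' := R1) (by omega) le_rfl (le_max_left _ _) hM
          (M := 1) le_rfl (m := 0) (by simp) (by simp)
        rwa [mul_one] at this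
      · exact hA.trans (Real.exp_le_exp.2 (Real.rpow_le_rpow_of_exponent_le (by linarith)
          (min_le_left _ _)))
    · have hA0 : A ≠ 0 := by
        obtain ⟨n, u, x, e, h1, h2, h3, h4, h5⟩ := hM
        rw [h5]
        refine mul_ne_zero (mul_ne_zero (by omega) (pow_ne_zero _ hp.ne_zero)) ?_
        exact prod_ne_zero_iff.2 fun i _ => pow_ne_zero _ (by have := (h4 i).1; omega)
      have hsize : (Y : ℝ) ^ ((k + 1) * l + 1) * A ≤ Real.exp ((Y : ℝ) ^ δ2) := by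
        refine le_trans (mul_le_mul_of_nonneg_left (hA.trans (Real.exp_le_exp.2
          (Real.rpow_le_rpow_of_exponent_le (by linarith) (min_le_right _ _))))
          (by positivity)) (hY0 Y hge hY)
      obtain ⟨M, hM1, hM2, hT⟩ := terms_of_simple hq hqY hpq hA0 hsize hS
      refine hX2' p hp hpY (fun h => hpX (mem_union_right _ h)) (A * M)
        (Mult.mono (by omega) (by omega) (le_max_right _ _) hM hM1 hM2 (by
          have : k * l ≤ (k + 1) * l := Nat.mul_le_mul_right _ (by omega)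
          omega)) ?_ (Terms.mono (by omega) (by omega) le_rfl hT)
      refine le_trans ?_ hsize
      have h1 : A * M ≤ Y ^ ((k + 1) * l + 1) * A := by
        rw [mul_comm]
        refine Nat.mul_le_mul_right _ (hM2.trans (Nat.pow_le_pow_right (by omega) ?_))
        have : k * l ≤ (k + 1) * l := Nat.mul_le_mul_right _ (by omega)
        omega
      exact_mod_cast h1

end Pool.Agent.Results.MP_b08cb4_nt.FewTermsInAllBases
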