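import Mathlib
import Pool.Agent.H46.DG.Pow

set_option autoImplicit false

/-! # The law of the iterated logarithm for the lowest digits of powers of a prime

Let `p ≠ q` be primes.  For almost all `n < N` the counts of each digit `b` among the `m` lowest base `q`
digits of `p ^ n` satisfy, simultaneously for all bounded-below `m ≤ C log N` (`C` as large as we please),
the law of the iterated logarithm with the exact constant of independent uniform digits, from above and
from below; the same for every function of the digits, and for `z p ^ n` uniformly in all `z` prime to `q`. -/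

namespace Pool.Agent.Results.MP_b08cb4_nt.IteratedLogarithm

open Finset

/-- the mean of `f` over the digits `0, …, q - 1` -/
noncomputable def mean (q : ℕ) (f : ℕ → ℝ) : ℝ := (∑ b ∈ range q, f b) / q

/-- the variance of `f` over the digits `0, …, q - 1` -/
noncomputable def variance (q : ℕ) (f : ℕ → ℝ) : ℝ := (∑ b ∈ range q, (f b - mean q f) ^ 2) / q

/-- the sum of `f` over the `m` lowest digits of `x` in base `q`, minus `m * mean q f` -/
noncomputable def dev (q : ℕ) (f : ℕ → ℝ) (x m : ℕ) : ℝ :=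
  ∑ i ∈ range m, f (x / q ^ i % q) - m * mean q f

/-- the number of the digits `b` among the `m` lowest digits of `x` in base `q`, minus `m / q` -/
noncomputable def devDigit (q b x m : ℕ) : ℝ :=
  (((range m).filter fun i => x / q ^ i % q = b).card : ℝ) - m / q

/-- the scale `√(2 V m log log m)` of the law of the iterated logarithm for the variance `V` -/
noncomputable def scale (V : ℝ) (m : ℕ) : ℝ := Real.sqrt (2 * V * m * Real.log (Real.log m))

/-- **The law of the iterated logarithm for the lowest digits of powers.** Let `p ≠ q` be primes,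
`C, ε > 0` and `0 < δ ≤ 1`.

(1) For every function `f` of the digits with positive variance `V` there are `m₀`, `N₀` such that for
all `N ≥ N₀` and all `z` not divisible by `q`: all but at most `ε N` of the `n < N` are such that
`|dev q f (z p ^ n) m| ≤ (1 + δ) √(2 V m log log m)` for all `m` with `m₀ ≤ m ≤ C log N`; and for each
sign `σ` all but at most `ε N` of the `n < N` have an `m` with `(log N) ^ (1 - δ) ≤ m ≤ C log N` and
`σ * dev q f (z p ^ n) m ≥ (1 - δ) √(2 V m log log m)`.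

(2) In particular, with `V = (q - 1) / q ^ 2`, there are `m₀`, `N₀` such that for all `N ≥ N₀` and all `z`
not divisible by `q`: all but at most `ε N` of the `n < N` are such that for every digit `b` and all `m`
with `m₀ ≤ m ≤ C log N` the number of the digits `b` among the `m` lowest digits of `z p ^ n` differs
from `m / q` by at most `(1 + δ) √(2 V m log log m)`; and for each sign all but at most `ε N` of the
`n < N` are such that for every digit `b` this number is at least `m / q + (1 - δ) √(2 V m log log m)`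
(respectively at most `m / q - (1 - δ) √(2 V m log log m)`) for some `m` with
`(log N) ^ (1 - δ) ≤ m ≤ C log N`. -/
theorem result (p q : ℕ) (hp : p.Prime) (hq : q.Prime) (hpq : p ≠ q) (C ε δ : ℝ) (hC : 0 < C)
    (hε : 0 < ε) (hδ : 0 < δ) (hδ1 : δ ≤ 1) :
    (∀ f : ℕ → ℝ, 0 < variance q f → ∃ m₀ N₀ : ℕ, ∀ N : ℕ, N₀ ≤ N → ∀ z : ℕ, ¬ q ∣ z →
      ({n : ℕ | n < N ∧ ∃ m : ℕ, m₀ ≤ m ∧ (m : ℝ) ≤ C * Real.log N ∧
        (1 + δ) * scale (variance q f) m < |dev q f (z * p ^ n) m|}.ncard : ℝ) ≤ ε * N ∧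
      ∀ σ : ℝ, (σ = 1 ∨ σ = -1) →
        ({n : ℕ | n < N ∧ ¬ ∃ m : ℕ, Real.log N ^ (1 - δ) ≤ m ∧ (m : ℝ) ≤ C * Real.log N ∧
          (1 - δ) * scale (variance q f) m ≤ σ * dev q f (z * p ^ n) m}.ncard : ℝ) ≤ ε * N) ∧
    ∃ m₀ N₀ : ℕ, ∀ N : ℕ, N₀ ≤ N → ∀ z : ℕ, ¬ q ∣ z →
      ({n : ℕ | n < N ∧ ∃ b < q, ∃ m : ℕ, m₀ ≤ m ∧ (m : ℝ) ≤ C * Real.log N ∧
        (1 + δ) * scale (((q : ℝ) - 1) / q ^ 2) m < |devDigit q b (z * p ^ n) m|}.ncard : ℝ) ≤ ε * N ∧
      ∀ σ : ℝ, (σ = 1 ∨ σ = -1) →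
        ({n : ℕ | n < N ∧ ∃ b < q, ¬ ∃ m : ℕ, Real.log N ^ (1 - δ) ≤ m ∧ (m : ℝ) ≤ C * Real.log N ∧
          (1 - δ) * scale (((q : ℝ) - 1) / q ^ 2) m ≤ σ * devDigit q b (z * p ^ n) m}.ncard : ℝ) ≤
          ε * N := by
  classical
  have : NeZero q := ⟨hq.ne_zero⟩
  have hq2 : (2 : ℝ) ≤ q := by exact_mod_cast hq.two_le
  have conv : ∀ (N : ℕ) (P : ℕ → Prop), ({n : ℕ | n < N ∧ P n}.ncard : ℝ) = (((range N).filter P).card : ℝ) := by
    intro N P
    rw [← Set.ncard_coe_finset]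
    congr 2
    ext n
    simp
  have cfi : ∀ (s : Finset ℕ) (P Q : ℕ → Prop) (iP : DecidablePred P) (iQ : DecidablePred Q), (∀ n, P n ↔ Q n) →
      (@Finset.filter ℕ P iP s).card = (@Finset.filter ℕ Q iQ s).card := by
    intro s P Q iP iQ h
    congr 1
    ext n
    rw [mem_filter, mem_filter, h n]
  have conv2 : ∀ (N : ℕ) (P Q : ℕ → Prop), (∀ n, P n → Q n) →
      (((range N).filter P).card : ℝ) ≤ (((range N).filter Q).card : ℝ) := by
    intro N P Q h
    exact_mod_cast card_le_card (monotone_filter_right _ fun n _ => h n)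
  have main : ∀ (ε : ℝ), 0 < ε → ∀ f : ℕ → ℝ, 0 < variance q f → ∃ m₀ N₀ : ℕ, ∀ N : ℕ, N₀ ≤ N → ∀ z : ℕ, ¬ q ∣ z →
      ({n : ℕ | n < N ∧ ∃ m : ℕ, m₀ ≤ m ∧ (m : ℝ) ≤ C * Real.log N ∧
        (1 + δ) * scale (variance q f) m < |dev q f (z * p ^ n) m|}.ncard : ℝ) ≤ ε * N ∧
      ∀ σ : ℝ, (σ = 1 ∨ σ = -1) →
        ({n : ℕ | n < N ∧ ¬ ∃ m : ℕ, Real.log N ^ (1 - δ) ≤ m ∧ (m : ℝ) ≤ C * Real.log N ∧
          (1 - δ) * scale (variance q f) m ≤ σ * dev q f (z * p ^ n) m}.ncard : ℝ) ≤ ε * N := by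
    intro ε hε f hf
    obtain ⟨m₀, N₁, _, h1⟩ := Pool.Agent.H46.DG.pow_up p q hp hq hpq f hf C ε δ hC hε hδ hδ1
    obtain ⟨N₂, h2⟩ := Pool.Agent.H46.DG.pow_low p q hp hq hpq f hf C ε δ hC hε hδ hδ1
    refine ⟨m₀, N₁ + N₂, fun N hN z hz => ⟨?_, fun σ hσ => ?_⟩⟩
    · rw [conv]
      exact h1 N (by omega) z hz
    · rw [conv]
      refine le_trans (le_of_eq ?_) (h2 N (by omega) z hz σ (by rcases hσ with h | h <;> rw [h] <;> simp))
      exact congrArg (fun k : ℕ => (k : ℝ)) (cfi _ _ _ _ _ fun n => Iff.rfl)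
  refine ⟨fun f hf => main ε hε f hf, ?_⟩
  have hmean : ∀ b < q, mean q (fun c => if c = b then 1 else 0) = 1 / q := by
    intro b hb
    unfold mean
    rw [sum_ite_eq', if_pos (mem_range.2 hb)]
  have hvar : ∀ b < q, variance q (fun c => if c = b then 1 else 0) = ((q : ℝ) - 1) / q ^ 2 := by
    intro b hb
    unfold variance
    rw [hmean b hb]
    have h2 : ∀ c ∈ range q, ((if c = b then (1 : ℝ) else 0) - 1 / q) ^ 2 =
        (if c = b then (1 - 2 / q : ℝ) else 0) + 1 / q ^ 2 := by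
      intro c _
      split_ifs
      · field_simp; ring
      · field_simp; ring
    rw [sum_congr rfl h2, sum_add_distrib, sum_ite_eq', if_pos (mem_range.2 hb), sum_const, card_range, nsmul_eq_mul]
    field_simp
    ring
  have hdev : ∀ b < q, ∀ x m : ℕ, dev q (fun c => if c = b then 1 else 0) x m = devDigit q b x m := by
    intro b hb x m
    unfold dev devDigit
    rw [hmean b hb, sum_boole, mul_one_div]
  have hpos : 0 < ((q : ℝ) - 1) / q ^ 2 := by
    apply div_pos
    · linarith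
    · positivity
  have hch : ∀ b : ℕ, ∃ m₀ N₀ : ℕ, b < q → ∀ N : ℕ, N₀ ≤ N → ∀ z : ℕ, ¬ q ∣ z →
      ({n : ℕ | n < N ∧ ∃ m : ℕ, m₀ ≤ m ∧ (m : ℝ) ≤ C * Real.log N ∧
        (1 + δ) * scale (((q : ℝ) - 1) / q ^ 2) m < |devDigit q b (z * p ^ n) m|}.ncard : ℝ) ≤ ε / q * N ∧
      ∀ σ : ℝ, (σ = 1 ∨ σ = -1) →
        ({n : ℕ | n < N ∧ ¬ ∃ m : ℕ, Real.log N ^ (1 - δ) ≤ m ∧ (m : ℝ) ≤ C * Real.log N ∧
          (1 - δ) * scale (((q : ℝ) - 1) / q ^ 2) m ≤ σ * devDigit q b (z * p ^ n) m}.ncard : ℝ) ≤ ε / q * N := by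
    intro b
    by_cases hb : b < q
    · obtain ⟨m₀, N₀, h⟩ := main (ε / q) (by positivity) (fun c => if c = b then 1 else 0) (by rw [hvar b hb]; exact hpos)
      refine ⟨m₀, N₀, fun _ N hN z hz => ?_⟩
      have h1 := h N hN z hz
      rw [hvar b hb] at h1
      simp only [hdev b hb] at h1
      exact h1
    · exact ⟨0, 0, fun h => absurd h hb⟩
  choose m₀ N₀ hB using hch
  refine ⟨(range q).sup m₀, (range q).sup N₀, fun N hN z hz => ?_⟩
  have hm : ∀ b ∈ range q, m₀ b ≤ (range q).sup m₀ := fun b hb => le_sup hb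
  have hNb : ∀ b ∈ range q, N₀ b ≤ N := fun b hb => (le_sup hb).trans hN
  have union : ∀ (P : ℕ → ℕ → Prop), (∀ b < q, ({n : ℕ | n < N ∧ P b n}.ncard : ℝ) ≤ ε / q * N) →
      ({n : ℕ | n < N ∧ ∃ b < q, P b n}.ncard : ℝ) ≤ ε * N := by
    intro P hP
    obtain ⟨R, hR⟩ : ∃ R : ℕ → Prop, R = fun n => ∃ b < q, P b n := ⟨_, rfl⟩
    have e0 : {n : ℕ | n < N ∧ ∃ b < q, P b n} = {n : ℕ | n < N ∧ R n} := by rw [hR]
    rw [e0, conv]
    have h1 : ((range N).filter R) ⊆ (range q).biUnion fun b => (range N).filter (P b) := by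
      intro n hn
      rw [mem_filter, hR] at hn
      obtain ⟨hn, b, hb, h⟩ := hn
      rw [mem_biUnion]
      exact ⟨b, mem_range.2 hb, mem_filter.2 ⟨hn, h⟩⟩
    have h2 : (((range N).filter R).card : ℝ) ≤ ∑ b ∈ range q, (((range N).filter (P b)).card : ℝ) := by
      exact_mod_cast (card_le_card h1).trans card_biUnion_le
    refine h2.trans ?_
    have h3 : ∀ b ∈ range q, (((range N).filter (P b)).card : ℝ) ≤ ε / q * N := by
      intro b hb
      rw [← conv]
      exact hP b (mem_range.1 hb)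
    refine (sum_le_sum h3).trans ?_
    rw [sum_const, card_range, nsmul_eq_mul]
    apply le_of_eq
    field_simp
  refine ⟨?_, fun σ hσ => ?_⟩
  · apply union
    intro b hb
    have h1 := (hB b hb N (hNb b (mem_range.2 hb)) z hz).1
    refine le_trans ?_ h1
    rw [conv, conv]
    apply conv2
    rintro n ⟨m, h2, h3⟩
    exact ⟨m, (hm b (mem_range.2 hb)).trans h2, h3⟩
  · apply union
    intro b hb
    exact (hB b hb N (hNb b (mem_range.2 hb)) z hz).2 σ hσ

end Pool.Agent.Results.MP_b08cb4_nt.IteratedLogarithm
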