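import Pool.Agent.H42UP.Dens

/-!
# The digits of almost all powers are equidistributed if and only if they are unpredictable

Let `p, q ≥ 2` be multiplicatively independent (for example two different primes). The places of a
positive integer `B` are the numbers `i < len q B` (the number of its base `q` digits), the digit at
the place `i` is the coefficient of `q ^ i`. A place `i` is called `δ`-unpredictable at the scale
`(k, j)` if, among the places `i'` of `B` with the same context of `k` digits as `i` (the digits at
the places `i' + j + k - 1, …, i' + j`), at most the proportion `δ` has also the same next `j`
digits (those at the places `i' + j - 1, …, i'`); `unp q k j δ B` is the number of these places. So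
the next `j` digits cannot be guessed, with a probability of success above `δ`, from the `k`
preceding ones and the statistics of the words in `B`. Only very short continuations are used:
`Scale p q A k j` says that `q ^ j ≤ exp (A √(log k))` (that is `j = O(√(log k))`), or that
`q ^ j ≤ k ^ A` (that is `j = O(log k)`) and `{p, q} = {2, 3}`.

For the numbers `u p ^ n` the following are equivalent:
1. for almost all `n` all words have the right frequency in `u p ^ n`;
2. for almost all `n` ALL places of `u p ^ n` are `δ`-unpredictable, at EVERY scale `(k, j)` with
`δ q ^ j ≥ 2`;
3. for every `δ > 0` there are arbitrarily large `k`, and ONE `j` which is so small as above, such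
that in most windows `[n, n + δ k)` of exponents (all but a set of `n` of upper density at most `δ`)
there is ONE exponent `n'` for which the share of the `δ`-unpredictable places of `u p ^ n'` is at
least `1 - δ`.

So if the digits of the powers are not equidistributed for almost all exponents, then they are
predictable at all large scales: there is `δ > 0` such that for all large `k` there are many windows
of `δ k` consecutive exponents in which, for every `n'`, for a proportion `δ` of the places of
`u p ^ n'` the next `j` digits are guessed from the `k` preceding ones with probability above `δ`,
although there are as many as `q ^ j ≥ exp (A √(log k)) / q` possible continuations.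

The proof. The places `i` of `B` are represented by the points `B / q ^ (i + k + j)` of the circle.
By a theorem of the library for arbitrary probability measures on the circle (a local form of the
method of Host, Johnson and Rudolph, with van der Corput's inequality for the windows of the
semigroup generated by `p` and `q`; `H806_Gap` of `MP_96e181_an`) the images under the
multiplications by `p ^ a q ^ b` in a window of the part of the empirical measure on which small
balls have a small share of the mass of larger ones are equidistributed on the average. The
multiplication by `q ^ b` only shifts the places. So for most `a` with `p ^ a ≤ q ^ k` the share of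
those places of `p ^ a B` which come from unpredictable places of `B` and at which a long word with
a wrong frequency of some word of `m` digits stands is small (`Core.lean`). For (3) ⟹ (1) the
windows following the unpredictable exponents cover almost all exponents.
-/

set_option autoImplicit false

open Filter Topology
open Pool.Agent.H42UP

/-- **The digits of almost all powers are equidistributed if and only if they are unpredictable.**
Let `p, q ≥ 2` be multiplicatively independent and `u, A ≥ 1`. The following are equivalent.
(1) For all `m` and `ε > 0`, for almost all `n` all words of `m` digits have the frequency
`q ^ (-m)` in `u p ^ n`, up to `ε`.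
(2) For all `δ > 0`, `k` and `j` with `δ q ^ j ≥ 2`, for almost all `n` all places of `u p ^ n` are
`δ`-unpredictable at the scale `(k, j)`.
(3) For every `δ > 0` there are arbitrarily large `k` and a `j` with `Scale p q A k j` such that the
set of the `n` for which no `n'` with `n ≤ n' < n + δ k` satisfies
`unp q k j δ (u p ^ n') ≥ (1 - δ) len q (u p ^ n')` has upper density at most `δ`. -/
theorem Pool.Agent.Results.MP_b08cb4_nt.UnpredictableDigits.result (p q : ℕ) (hp : 2 ≤ p)
    (hq : 2 ≤ q) (hpq : ∀ x y : ℕ, 0 < x → 0 < y → p ^ x ≠ q ^ y) (u A : ℕ) (hu : 1 ≤ u)
    (hA : 1 ≤ A) : List.TFAE [
      ∀ (m : ℕ) (ε : ℝ), 0 < ε → DensityZero {n | ¬ Balanced q m ε (u * p ^ n)},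
      ∀ (δ : ℝ) (k j : ℕ), 0 < δ → 2 ≤ δ * (q : ℝ) ^ j →
        DensityZero {n | unp q k j δ (u * p ^ n) ≠ len q (u * p ^ n)},
      ∀ δ : ℝ, 0 < δ → ∃ᶠ k : ℕ in atTop, ∃ j : ℕ, Scale p q A k j ∧ ∀ᶠ M : ℕ in atTop,
        ({n : ℕ | n < M ∧ ∀ n' : ℕ, n ≤ n' → (n' : ℝ) < n + δ * k →
          (unp q k j δ (u * p ^ n') : ℝ) < (1 - δ) * len q (u * p ^ n')}.ncard : ℝ) ≤ δ * M] :=
  result_tfae hp hq hpq hu hA
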