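import Pool.Agent.H42UP.Dens

/-!
# One integer with unpredictable digits forces the words into most of its multiples by powers

Let `p, q ≥ 2` be multiplicatively independent (for example two different primes). The places of a
positive integer `B` are the numbers `i < len q B` (the number of its base `q` digits), the digit at
the place `i` is the coefficient of `q ^ i`. A place `i` is called `δ`-unpredictable at the scale
`(k, j)` if, among the places `i'` of `B` with the same context of `k` digits as `i` (the digits at
the places `i' + j + k - 1, …, i' + j`), at most the proportion `δ` has also the same next `j`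
digits (those at the places `i' + j - 1, …, i'`); `unp q k j δ B` is the number of these places.
Only very short continuations are used: `Scale p q A k j` says that `q ^ j ≤ exp (A √(log k))` (that
is `j = O(√(log k))`), or that `q ^ j ≤ k ^ A` (that is `j = O(log k)`) and `{p, q} = {2, 3}`.

Let `k` be large, `(k, j)` such a scale, and `B` ANY integer with sufficiently many digits, for
example `B = p ^ n`. Then for all but at most `ε k` of the exponents `a` with `p ^ a ≤ q ^ k` every
word of `m` digits stands in `p ^ a B` at at least `unp q k j δ B / q ^ m - ε len q B` places. So
the frequency of every word in most of the `⌊k log q / log p⌋ + 1` integers `B, p B, p ^ 2 B, …` is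
at least the share of the unpredictable places of `B` times the right frequency `q ^ (-m)`, up to
`ε`. For instance all words have almost the right frequency in most of these integers if almost all
places of `B` are unpredictable; the digits of `B` itself may be far from equidistributed (some
digits may be missing).

The proof. The places `i` of `B` are represented by the points `B / q ^ (i + k + j)` of the circle.
By a theorem of the library for arbitrary probability measures on the circle (a local form of the
method of Host, Johnson and Rudolph, with van der Corput's inequality for the windows of the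
semigroup generated by `p` and `q`; `H806_Gap` of `MP_96e181_an`; the function `exp (θ √(log x))` in
it comes from the estimates of linear forms in two logarithms, see `TwoLogs.lean`) the images under
the multiplications by `p ^ a q ^ b` in a window of the part of the empirical measure on which small
balls have a small share of the mass of larger ones are equidistributed on the average. The
multiplication by `q ^ b` only shifts the places.
-/

set_option autoImplicit false

open Filter Topology
open Pool.Agent.H42UP

/-- **One integer with unpredictable digits.** Let `p, q ≥ 2` be multiplicatively independent. For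
all `A`, `m` and `ε > 0` there are `δ > 0` and `k₀` such that for all `k ≥ k₀` and all `j` with
`Scale p q A k j` all integers `B` with sufficiently many digits have the following property: for
all but at most `ε k` of the `a` with `p ^ a ≤ q ^ k` every word of `m` digits stands in `p ^ a B`
at at least `unp q k j δ B / q ^ m - ε len q B` places. -/
theorem Pool.Agent.Results.MP_b08cb4_nt.UnpredictableInteger.result (p q : ℕ) (hp : 2 ≤ p)
    (hq : 2 ≤ q) (hpq : ∀ x y : ℕ, 0 < x → 0 < y → p ^ x ≠ q ^ y) (A m : ℕ) (ε : ℝ) (hε : 0 < ε) :
    ∃ δ : ℝ, 0 < δ ∧ ∃ k₀ : ℕ, ∀ k j : ℕ, k₀ ≤ k → Scale p q A k j → ∃ N₀ : ℕ, ∀ B : ℕ,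
      N₀ ≤ len q B → ({a : ℕ | p ^ a ≤ q ^ k ∧ ∃ w < q ^ m, (occ q m w (p ^ a * B) : ℝ) <
        unp q k j δ B / (q : ℝ) ^ m - ε * len q B}.ncard : ℝ) ≤ ε * k := by
  obtain ⟨δ, hδ, -, k₀, h⟩ := concl_scale hp hq hpq A m hε
  refine ⟨δ, hδ, k₀, fun k j hk hj => ?_⟩
  obtain ⟨N₀, h⟩ := h k hk j hj
  refine ⟨N₀, fun B hB => le_trans ?_ (h B hB)⟩
  rw [← Set.ncard_coe_finset]
  have hq0 : 0 < q := by omega
  have e0 : ((q ^ m : ℕ) : ℝ) = (q : ℝ) ^ m := by push_cast; rfl
  refine Nat.cast_le.2 (Set.ncard_le_ncard ?_ (Finset.finite_toSet _))
  rintro a ⟨ha, w, hw, hlt⟩
  rw [Finset.mem_coe, Finset.mem_filter, Finset.mem_range, Nat.lt_succ_iff]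
  refine ⟨(Nat.le_log_iff_pow_le (by omega) (Nat.pow_pos hq0).ne').2 ha, fun hcon => ?_⟩
  have h1 := hcon w hw
  rw [e0] at h1
  linarith
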